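import Mathlib
import Pool.Agent.P8H99.GO.Stm

/-!
# Project OD (helper99): four facts on lists (package MUL)
-/

set_option autoImplicit false

open Finset

namespace Pool.Agent.P8H96.OD

open Pool.Agent.P8H99.GO

theorem mult_mul (s : List ℕ) : mult s * (s.map Nat.factorial).prod = s.sum.factorial := by
  induction s with
  | nil => simp [mult]
  | cons x l ih =>
    have h := Nat.choose_mul_factorial_mul_factorial (Nat.le_add_right x l.sum)
    rw [Nat.add_sub_cancel_left] at h
    rw [List.map_cons, List.prod_cons, List.sum_cons, mult]
    calc (x + l.sum).choose x * mult l * (x.factorial * (l.map Nat.factorial).prod)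
        = (x + l.sum).choose x * x.factorial * (mult l * (l.map Nat.factorial).prod) := by ring
      _ = (x + l.sum).factorial := by rw [ih, h]

theorem prod_pos (s : List ℕ) : 0 < (s.map Nat.factorial).prod := by
  induction s with
  | nil => simp
  | cons x l ih =>
    rw [List.map_cons, List.prod_cons]
    exact Nat.mul_pos (Nat.factorial_pos x) ih

theorem mult_reverse (s : List ℕ) : mult s.reverse = mult s := by
  have h1 := mult_mul s
  have h2 := mult_mul s.reverse
  rw [List.map_reverse, List.prod_reverse, List.sum_reverse] at h2
  exact Nat.eq_of_mul_eq_mul_right (prod_pos s) (h2.trans h1.symm)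

theorem path_append (s : List ℕ) (x y : ℕ) : path (s ++ [x, y]) = path (s ++ [x]) + x * y := by
  induction s with
  | nil => simp [path]
  | cons z s ih =>
    cases s with
    | nil => simp [path]
    | cons w s =>
      simp only [List.cons_append, path] at ih ⊢
      rw [ih]
      ring

theorem path_reverse (s : List ℕ) : path s.reverse = path s := by
  induction s with
  | nil => simp
  | cons x s ih =>
    cases s with
    | nil => simp
    | cons y l =>
      have h1 : (x :: y :: l).reverse = l.reverse ++ [y, x] := by simp
      have h2 : (y :: l).reverse = l.reverse ++ [y] := by simp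
      rw [h1, path_append, ← h2, ih, path]
      ring

theorem mult_le (s : List ℕ) : mult s ≤ s.length ^ s.sum := by
  induction s with
  | nil => simp [mult]
  | cons x l ih =>
    rw [mult, List.length_cons, List.sum_cons]
    calc (x + l.sum).choose x * mult l ≤ (x + l.sum).choose x * l.length ^ l.sum := Nat.mul_le_mul_left _ ih
      _ ≤ (l.length + 1) ^ (x + l.sum) := by
        rw [add_pow]
        have h := single_le_sum (f := fun m => l.length ^ m * 1 ^ (x + l.sum - m) * (x + l.sum).choose m)
          (fun _ _ => Nat.zero_le _) (mem_range.2 (show l.sum < x + l.sum + 1 by omega))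
        refine le_trans (le_of_eq ?_) h
        simp only [one_pow, mul_one]
        rw [show (x + l.sum).choose l.sum = (x + l.sum).choose x from (Nat.choose_symm_add).symm]
        ring

theorem mul : S_MUL := ⟨mult_mul, mult_reverse, path_reverse, mult_le⟩

end Pool.Agent.P8H96.OD
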