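import Mathlib
import Pool.Agent.P8H99.GO.Stm

/-!
# Project OD (helper99): lists of length six (package SIX)
-/

set_option autoImplicit false

open Finset

namespace Pool.Agent.P8H96.OD.Six

open Pool.Agent.P8H99.GO

/-- The loss in the exponent. -/
theorem loss {a b c d e f n T : ℝ} (ha : 1 ≤ a) (hb : 1 ≤ b) (hc : 1 ≤ c) (hd : 1 ≤ d) (he : 1 ≤ e) (hf : 1 ≤ f)
    (hn : n = a + b + c + d + e + f) (hT : 420 ≤ T) (hnT : T ≤ n)
    (h : (T < a ∧ T < e) ∨ (T < b ∧ T < f) ∨ (T < a ∧ T < f) ∨ 3 * n ≤ b * e) :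
    5 / 2 * n ≤ (a * d + a * f + c * f + b * e) + ((b + d + f) - (a + c + e)) ^ 2 / 4 := by
  have hM : 0 ≤ a * d + a * f + c * f + b * e := by positivity
  have hsq : 0 ≤ ((b + d + f) - (a + c + e)) ^ 2 / 4 := by positivity
  have hn0 : 420 ≤ n := hT.trans hnT
  by_cases h1 : b + d + f < n / 4
  · have h2 : n / 2 ≤ (a + c + e) - (b + d + f) := by linarith
    have h3 : (n / 2) ^ 2 ≤ ((a + c + e) - (b + d + f)) ^ 2 := pow_le_pow_left₀ (by linarith) h2 2
    nlinarith
  by_cases h1' : a + c + e < n / 4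
  · have h2 : n / 2 ≤ (b + d + f) - (a + c + e) := by linarith
    have h3 : (n / 2) ^ 2 ≤ ((b + d + f) - (a + c + e)) ^ 2 := pow_le_pow_left₀ (by linarith) h2 2
    nlinarith
  rw [not_lt] at h1 h1'
  rcases h with ⟨h2, h3⟩ | ⟨h2, h3⟩ | ⟨h2, h3⟩ | h2
  · have h4 : T * (d + f) ≤ a * (d + f) := mul_le_mul_of_nonneg_right h2.le (by linarith)
    have h5 : T * b ≤ e * b := mul_le_mul_of_nonneg_right h3.le (by linarith)
    have h6 : T * (n / 4) ≤ T * (b + d + f) := mul_le_mul_of_nonneg_left h1 (by linarith)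
    have h7 : 420 * (n / 4) ≤ T * (n / 4) := mul_le_mul_of_nonneg_right hT (by linarith)
    have h8 : 0 ≤ c * f := by positivity
    nlinarith
  · have h4 : T * (a + c) ≤ f * (a + c) := mul_le_mul_of_nonneg_right h3.le (by linarith)
    have h5 : T * e ≤ b * e := mul_le_mul_of_nonneg_right h2.le (by linarith)
    have h6 : T * (n / 4) ≤ T * (a + c + e) := mul_le_mul_of_nonneg_left h1' (by linarith)
    have h7 : 420 * (n / 4) ≤ T * (n / 4) := mul_le_mul_of_nonneg_right hT (by linarith)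
    have h8 : 0 ≤ a * d := by positivity
    nlinarith
  · by_contra hcon
    rw [not_le] at hcon
    have h4 : 420 * (d + f) ≤ a * (d + f) := mul_le_mul_of_nonneg_right (by linarith) (by linarith)
    have h5 : 420 * (a + c) ≤ f * (a + c) := mul_le_mul_of_nonneg_right (by linarith) (by linarith)
    have h6 : 0 ≤ b * e := by positivity
    have h7 : 0 ≤ c * f := by positivity
    have h7' : 0 ≤ a * d := by positivity
    have h8 : d + f < n / 16 := by nlinarith
    have h9 : a + c < n / 16 := by nlinarith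
    have h10 : 3 * n / 16 ≤ b := by linarith
    have h11 : 3 * n / 16 ≤ e := by linarith
    have h12 : 3 * n / 16 * (3 * n / 16) ≤ b * e := mul_le_mul h10 h11 (by linarith) (by linarith)
    have h13 : 0 ≤ a * f := by positivity
    nlinarith
  · have h8 : 0 ≤ c * f := by positivity
    have h9 : 0 ≤ a * d := by positivity
    have h10 : 0 ≤ a * f := by positivity
    linarith

theorem chs (m j : ℕ) : (m.choose j : ℝ) ≤ (65 / 64 : ℝ) ^ m * 64 ^ j := by
  rcases le_or_gt j m with h | h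
  · have h1 : (65 / 64 : ℝ) ^ m = ∑ i ∈ range (m + 1), (1 / 64 : ℝ) ^ i * 1 ^ (m - i) * (m.choose i : ℝ) := by
      rw [← add_pow]
      norm_num
    have h2 := single_le_sum (f := fun i => (1 / 64 : ℝ) ^ i * 1 ^ (m - i) * (m.choose i : ℝ))
      (fun _ _ => by positivity) (mem_range.2 (show j < m + 1 by omega))
    rw [← h1] at h2
    simp only [one_pow, mul_one] at h2
    have h3 : (m.choose j : ℝ) = (1 / 64 : ℝ) ^ j * (m.choose j : ℝ) * 64 ^ j := by
      rw [one_div, inv_pow]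
      field_simp
    rw [h3]
    exact mul_le_mul_of_nonneg_right h2 (by positivity)
  · rw [Nat.choose_eq_zero_of_lt h, Nat.cast_zero]
    positivity

theorem pow65 (n : ℕ) : (65 / 64 : ℝ) ^ n ≤ (2 : ℝ) ^ ((n : ℝ) / 32) := by
  have h1 : (65 / 64 : ℝ) ≤ (2 : ℝ) ^ ((1 : ℝ) / 32) := by
    have h2 : (65 / 64 : ℝ) = ((65 / 64 : ℝ) ^ (32 : ℕ)) ^ ((32 : ℕ) : ℝ)⁻¹ :=
      (Real.pow_rpow_inv_natCast (by norm_num) (by norm_num)).symm
    rw [h2]
    have h3 : ((32 : ℕ) : ℝ)⁻¹ = 1 / 32 := by norm_num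
    rw [h3]
    exact Real.rpow_le_rpow (by positivity) (by norm_num) (by norm_num)
  calc (65 / 64 : ℝ) ^ n ≤ ((2 : ℝ) ^ ((1 : ℝ) / 32)) ^ n := pow_le_pow_left₀ (by norm_num) h1 n
    _ = (2 : ℝ) ^ ((n : ℝ) / 32) := by
      rw [← Real.rpow_natCast, ← Real.rpow_mul (by norm_num)]
      congr 1
      ring

theorem fin {m p : ℕ} {X Y : ℝ} (hm : (m : ℝ) ≤ (2 : ℝ) ^ X) (h : X + p ≤ Y) : (m : ℝ) * 2 ^ p ≤ (2 : ℝ) ^ Y := by
  calc (m : ℝ) * 2 ^ p ≤ (2 : ℝ) ^ X * 2 ^ p := mul_le_mul_of_nonneg_right hm (by positivity)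
    _ = (2 : ℝ) ^ (X + p) := by rw [Real.rpow_add (by norm_num), Real.rpow_natCast]
    _ ≤ (2 : ℝ) ^ Y := Real.rpow_le_rpow_of_exponent_le (by norm_num) h

theorem grow {T : ℕ} (hT : 420 ≤ T) : 40 * (T * (T + 1)) ≤ 2 ^ T := by
  induction T, hT using Nat.le_induction with
  | base => exact le_trans (by norm_num : 40 * (420 * (420 + 1)) ≤ 2 ^ 24) (Nat.pow_le_pow_right (by norm_num) (by norm_num))
  | succ T hT ih =>
    rw [pow_succ]
    nlinarith

/-- The number of the arrangements, if the first and the last entry are small. -/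
theorem mult_small (hM : S_MUL) {a b c d e f n T : ℕ} (hn : n = a + b + c + d + e + f) (ha : a ≤ T) (hf : f ≤ T)
    (hT : n < 2 ^ (T + 1)) :
    (mult [a, b, c, d, e, f] : ℝ) ≤
      (2 : ℝ) ^ (2 * ((T : ℝ) * (T + 1)) + (n : ℝ) / 16 + 6 * (b + e) + (c + d) : ℝ) := by
  have h1 := hM.1 [a, b, c, d, e, f]
  have h2 := hM.1 [a, f, b, e, c, d]
  have h3 : mult [a, b, c, d, e, f] = mult [a, f, b, e, c, d] := by
    have hP : ([a, b, c, d, e, f].map Nat.factorial).prod = ([a, f, b, e, c, d].map Nat.factorial).prod := by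
      simp only [List.map_cons, List.map_nil, List.prod_cons, List.prod_nil]
      ring
    have hS : [a, b, c, d, e, f].sum = [a, f, b, e, c, d].sum := by
      simp only [List.sum_cons, List.sum_nil]
      ring
    rw [← hS, ← hP] at h2
    have hpos : 0 < ([a, b, c, d, e, f].map Nat.factorial).prod := by
      simp only [List.map_cons, List.map_nil, List.prod_cons, List.prod_nil]
      have := Nat.factorial_pos a
      have := Nat.factorial_pos b
      have := Nat.factorial_pos c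
      have := Nat.factorial_pos d
      have := Nat.factorial_pos e
      have := Nat.factorial_pos f
      positivity
    exact Nat.eq_of_mul_eq_mul_right hpos (h1.trans h2.symm)
  rw [h3]
  -- the six factors
  have hA : ∀ x m : ℕ, x ≤ T → m ≤ n → (m.choose x : ℝ) ≤ (2 : ℝ) ^ ((T : ℝ) * (T + 1)) := by
    intro x m hx hm
    have h4 : m.choose x ≤ (2 ^ (T + 1)) ^ T := by
      calc m.choose x ≤ m ^ x := Nat.choose_le_pow m x
        _ ≤ (2 ^ (T + 1)) ^ x := Nat.pow_le_pow_left (by omega) x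
        _ ≤ (2 ^ (T + 1)) ^ T := Nat.pow_le_pow_right (by positivity) hx
    have h5 : (m.choose x : ℝ) ≤ ((2 : ℝ) ^ (T + 1)) ^ T := by exact_mod_cast h4
    refine h5.trans (le_of_eq ?_)
    rw [← pow_mul, ← Real.rpow_natCast]
    congr 1
    push_cast
    ring
  have hB : ∀ x m : ℕ, m ≤ n → (m.choose x : ℝ) ≤ (2 : ℝ) ^ ((n : ℝ) / 32 + 6 * x) := by
    intro x m hm
    calc (m.choose x : ℝ) ≤ (65 / 64 : ℝ) ^ m * 64 ^ x := chs m x
      _ ≤ (65 / 64 : ℝ) ^ n * 64 ^ x :=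
        mul_le_mul_of_nonneg_right (pow_le_pow_right₀ (by norm_num) hm) (by positivity)
      _ ≤ (2 : ℝ) ^ ((n : ℝ) / 32) * 64 ^ x := mul_le_mul_of_nonneg_right (pow65 n) (by positivity)
      _ = (2 : ℝ) ^ ((n : ℝ) / 32 + 6 * x) := by
        rw [Real.rpow_add (by norm_num)]
        congr 1
        rw [show (64 : ℝ) = 2 ^ (6 : ℕ) by norm_num, ← pow_mul, ← Real.rpow_natCast]
        congr 1
        push_cast
        ring
  have hC : (((c + d).choose c : ℕ) : ℝ) ≤ (2 : ℝ) ^ ((c : ℝ) + d) := by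
    have h4 : (c + d).choose c ≤ 2 ^ (c + d) := Nat.choose_le_two_pow _ _
    have h5 : (((c + d).choose c : ℕ) : ℝ) ≤ (2 : ℝ) ^ (c + d) := by exact_mod_cast h4
    refine h5.trans (le_of_eq ?_)
    rw [← Real.rpow_natCast]
    congr 1
    push_cast
    ring
  have e1 : (mult [a, f, b, e, c, d] : ℝ) = ((a + (f + (b + (e + (c + d))))).choose a : ℝ) *
      (((f + (b + (e + (c + d)))).choose f : ℝ) * (((b + (e + (c + d))).choose b : ℝ) *
        (((e + (c + d)).choose e : ℝ) * ((c + d).choose c : ℝ)))) := by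
    simp only [mult, List.sum_cons, List.sum_nil, Nat.add_zero, Nat.choose_self, mul_one]
    push_cast
    ring
  rw [e1]
  have f1 := hA a (a + (f + (b + (e + (c + d))))) ha (by omega)
  have f2 := hA f (f + (b + (e + (c + d)))) hf (by omega)
  have f3 := hB b (b + (e + (c + d))) (by omega)
  have f4 := hB e (e + (c + d)) (by omega)
  calc _ ≤ (2 : ℝ) ^ ((T : ℝ) * (T + 1)) * ((2 : ℝ) ^ ((T : ℝ) * (T + 1)) * ((2 : ℝ) ^ ((n : ℝ) / 32 + 6 * b) *
        ((2 : ℝ) ^ ((n : ℝ) / 32 + 6 * e) * (2 : ℝ) ^ ((c : ℝ) + d)))) := by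
        gcongr
    _ = _ := by
        rw [← Real.rpow_add (by norm_num), ← Real.rpow_add (by norm_num), ← Real.rpow_add (by norm_num),
          ← Real.rpow_add (by norm_num)]
        congr 1
        ring

theorem six (hM : S_MUL) : S_SIX := by
  refine ⟨2 ^ 420, ?_⟩
  intro s hs h1 hN hb hr
  obtain ⟨a, b, c, d, e, f, rfl⟩ : ∃ a b c d e f, s = [a, b, c, d, e, f] := by
    match s, hs with
    | [a, b, c, d, e, f], _ => exact ⟨a, b, c, d, e, f, rfl⟩
  obtain ⟨n, hn⟩ : ∃ n, n = [a, b, c, d, e, f].sum := ⟨_, rfl⟩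
  obtain ⟨T, hT⟩ : ∃ T, T = Nat.log 2 n := ⟨_, rfl⟩
  rw [← hn] at hN hb hr ⊢
  rw [← hT] at hb hr
  have hn1 : n = a + b + c + d + e + f := by
    rw [hn]
    simp only [List.sum_cons, List.sum_nil]
    ring
  have hn0 : n ≠ 0 := by
    intro h
    rw [h] at hN
    exact absurd hN (by norm_num)
  have hT1 : 420 ≤ T := by
    rw [hT]
    exact Nat.le_log_of_pow_le (by norm_num) hN
  have hT2 : 2 ^ T ≤ n := by rw [hT]; exact Nat.pow_log_le_self 2 hn0
  have hT3 : n < 2 ^ (T + 1) := by rw [hT]; exact Nat.lt_pow_succ_log_self (by norm_num) n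
  have hgrow := (grow hT1).trans hT2
  simp only [List.mem_cons, List.not_mem_nil, or_false, forall_eq_or_imp, forall_eq] at h1
  obtain ⟨ha, hb', hc, hd, he, hf⟩ := h1
  obtain ⟨x, y, l, hxy, hxy'⟩ := hb
  obtain ⟨x', y', l', hxy2, hxy2'⟩ := hr
  have hl : [a, b, c, d, e, f].reverse = [f, e, d, c, b, a] := by simp
  rw [hl] at hxy2
  simp only [List.cons.injEq] at hxy hxy2
  obtain ⟨rfl, rfl, -⟩ := hxy
  obtain ⟨rfl, rfl, -⟩ := hxy2
  -- real numbers
  have ra : (1 : ℝ) ≤ a := by exact_mod_cast ha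
  have rb : (1 : ℝ) ≤ b := by exact_mod_cast hb'
  have rc : (1 : ℝ) ≤ c := by exact_mod_cast hc
  have rd : (1 : ℝ) ≤ d := by exact_mod_cast hd
  have re : (1 : ℝ) ≤ e := by exact_mod_cast he
  have rf : (1 : ℝ) ≤ f := by exact_mod_cast hf
  have rn : (n : ℝ) = a + b + c + d + e + f := by exact_mod_cast hn1
  have rT : (420 : ℝ) ≤ T := by exact_mod_cast hT1
  have rg : 40 * ((T : ℝ) * (T + 1)) ≤ n := by exact_mod_cast hgrow
  have rTn : (T : ℝ) ≤ n := by nlinarith
  have hpath : (path [a, b, c, d, e, f] : ℝ) = (n : ℝ) ^ 2 / 4 - (((a : ℝ) * d + a * f + c * f + b * e) +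
      (((b : ℝ) + d + f) - (a + c + e)) ^ 2 / 4) := by
    simp only [path]
    rw [rn]
    push_cast
    ring
  have key : ((T : ℝ) < a ∧ (T : ℝ) < e) ∨ ((T : ℝ) < b ∧ (T : ℝ) < f) ∨ ((T : ℝ) < a ∧ (T : ℝ) < f) ∨
      3 * (n : ℝ) ≤ b * e →
      (mult [a, b, c, d, e, f] : ℝ) * 2 ^ path [a, b, c, d, e, f] ≤
        (2 : ℝ) ^ ((n : ℝ) ^ 2 / 4 + (7 - (6 : ℝ)) / 2 * n) := by
    intro h
    have hl := loss ra rb rc rd re rf rn rT rTn h
    refine fin (X := 3 * n) ?_ ?_
    · have h2 := hM.2.2.2 [a, b, c, d, e, f]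
      rw [← hn] at h2
      have h3 : (mult [a, b, c, d, e, f] : ℝ) ≤ (6 : ℝ) ^ n := by exact_mod_cast h2
      refine h3.trans ?_
      calc (6 : ℝ) ^ n ≤ 8 ^ n := pow_le_pow_left₀ (by norm_num) (by norm_num) n
        _ = (2 : ℝ) ^ (3 * (n : ℝ)) := by
          rw [show (8 : ℝ) = 2 ^ (3 : ℕ) by norm_num, ← pow_mul, ← Real.rpow_natCast]
          congr 1
          push_cast
          ring
    · rw [hpath]
      linarith
  by_cases hbe : 3 * (n : ℝ) ≤ b * e
  · exact key (Or.inr (Or.inr (Or.inr hbe)))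
  by_cases hTa : T < a
  · rcases hxy2' with h | h
    · exact key (Or.inr (Or.inr (Or.inl ⟨by exact_mod_cast hTa, by exact_mod_cast h⟩)))
    · exact key (Or.inl ⟨by exact_mod_cast hTa, by exact_mod_cast h⟩)
  have hTb : T < b := hxy'.resolve_left hTa
  by_cases hTf : T < f
  · exact key (Or.inr (Or.inl ⟨by exact_mod_cast hTb, by exact_mod_cast hTf⟩))
  have hTe : T < e := hxy2'.resolve_left hTf
  rw [not_lt] at hTa hTf
  rw [not_le] at hbe
  have rTb : (T : ℝ) < b := by exact_mod_cast hTb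
  have rTe : (T : ℝ) < e := by exact_mod_cast hTe
  refine fin (mult_small hM hn1 hTa hTf hT3) ?_
  rw [hpath]
  have g1 : (T : ℝ) * b ≤ 3 * n := by nlinarith
  have g2 : (T : ℝ) * e ≤ 3 * n := by nlinarith
  have g3 : 420 * (b : ℝ) ≤ T * b := mul_le_mul_of_nonneg_right rT (by linarith)
  have g4 : 420 * (e : ℝ) ≤ T * e := mul_le_mul_of_nonneg_right rT (by linarith)
  have g5 : (d : ℝ) ≤ a * d := by nlinarith
  have g6 : (c : ℝ) ≤ c * f := by nlinarith
  have g7 : 0 ≤ (a : ℝ) * f := by positivity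
  have g8 : 0 ≤ (b : ℝ) * e := by positivity
  have g9 : 0 ≤ (((b : ℝ) + d + f) - (a + c + e)) ^ 2 / 4 := by positivity
  linarith

end Pool.Agent.P8H96.OD.Six
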